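import Pool.Agent.helper36.MS.Defs
import Pool.Agent.helper25.HY.MOB

/-! MASS (helper36). -/

set_option autoImplicit false

open Complex Metric Set Filter Topology

noncomputable section

namespace MS

/-- Green function. -/
def G (p w : ℂ) : ℝ := -Real.log ‖HY.T p w‖

lemma G_nonneg {p w : ℂ} (hp : ‖p‖ < 1) (hw : ‖w‖ < 1) : 0 ≤ G p w := by
  unfold G
  have h := (HY.MOB_T_lt hp hw).le
  have := Real.log_nonpos (norm_nonneg _) h
  linarith

/-- the roots of unity. -/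
def R (n : ℕ) : Finset ℂ := Polynomial.nthRootsFinset n (1 : ℂ)

lemma mem_R {n : ℕ} (hn : 0 < n) {z : ℂ} : z ∈ R n ↔ z ^ n = 1 := by
  unfold R
  rw [Polynomial.mem_nthRootsFinset hn]

lemma prim (n : ℕ) (hn : 0 < n) : IsPrimitiveRoot (Complex.exp (2 * Real.pi * Complex.I / n)) n :=
  Complex.isPrimitiveRoot_exp n hn.ne'

lemma card_R {n : ℕ} (hn : 0 < n) : (R n).card = n := by
  unfold R
  exact (prim n hn).card_nthRootsFinset

lemma norm_R {n : ℕ} (hn : 0 < n) {z : ℂ} (hz : z ∈ R n) : ‖z‖ = 1 := by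
  have h := (mem_R hn).mp hz
  exact norm_eq_one_of_pow_eq_one h hn.ne'

lemma prod_sub {n : ℕ} (hn : 0 < n) (x y : ℂ) : x ^ n - y ^ n = ∏ ζ ∈ R n, (x - ζ * y) := by
  unfold R
  exact (prim n hn).pow_sub_pow_eq_prod_sub_mul x y hn

lemma prod_T {n : ℕ} (hn : 0 < n) (e w : ℂ) :
    ∏ ζ ∈ R n, ‖HY.T (ζ * e) w‖ = ‖HY.T (e ^ n) (w ^ n)‖ := by
  have h1 : ∏ ζ ∈ R n, ‖w - ζ * e‖ = ‖w ^ n - e ^ n‖ := by
    rw [prod_sub hn w e, norm_prod]
  have h2 : ∏ ζ ∈ R n, ‖1 - (starRingEnd ℂ) (ζ * e) * w‖ = ‖1 - (starRingEnd ℂ) (e ^ n) * w ^ n‖ := by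
    have h3 : ∀ ζ ∈ R n, ‖1 - (starRingEnd ℂ) (ζ * e) * w‖ = ‖1 - ζ * (e * (starRingEnd ℂ) w)‖ := by
      intro ζ _
      have : 1 - ζ * (e * (starRingEnd ℂ) w) = (starRingEnd ℂ) (1 - (starRingEnd ℂ) (ζ * e) * w) := by
        simp only [map_sub, map_mul, map_one, Complex.conj_conj]
        ring
      rw [this, RCLike.norm_conj]
    rw [Finset.prod_congr rfl h3, ← norm_prod, ← prod_sub hn 1 (e * (starRingEnd ℂ) w)]
    have h4 : (1 : ℂ) ^ n - (e * (starRingEnd ℂ) w) ^ n =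
        (starRingEnd ℂ) (1 - (starRingEnd ℂ) (e ^ n) * w ^ n) := by
      simp only [map_sub, map_mul, map_one, Complex.conj_conj, map_pow, one_pow]
      ring
    rw [h4, RCLike.norm_conj]
  unfold HY.T
  simp only [norm_div]
  rw [Finset.prod_div_distrib, h1, h2]

lemma aux_div {u D X P Q Pc : ℂ} (hD : D ≠ 0) (hX : X ≠ 0) (hP : P ≠ 0) (hQ : Q ≠ 0) (hPc : Pc ≠ 0) :
    (u * D / (X * P)) / (D * Q / (Pc * X)) = u / Q * (Pc / P) := by
  field_simp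

/-- invariance -/
lemma T_SS {b p x : ℂ} (hb : ‖b‖ < 1) (hp : ‖p‖ < 1) (hx : ‖x‖ < 1) :
    ‖HY.T (HY.S b p) (HY.S b x)‖ = ‖HY.T p x‖ := by
  have hp' := HY.MOB_ne' hb hp
  have hx' := HY.MOB_ne' hb hx
  have hpc : 1 + b * (starRingEnd ℂ) p ≠ 0 := by
    intro h
    apply hp'
    have := congrArg (starRingEnd ℂ) h
    simpa using this
  have hone := HY.MOB_one hb
  have hpx := HY.MOB_ne hp hx
  have e1 : HY.S b x - HY.S b p = (x - p) * (1 - (‖b‖ : ℂ) ^ 2) /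
      ((1 + (starRingEnd ℂ) b * x) * (1 + (starRingEnd ℂ) b * p)) := by
    unfold HY.S
    rw [div_sub_div _ _ hx' hp', ← HY.MOB_cc]
    congr 1
    ring
  have e2 : 1 - (starRingEnd ℂ) (HY.S b p) * HY.S b x = (1 - (‖b‖ : ℂ) ^ 2) * (1 - (starRingEnd ℂ) p * x) /
      ((1 + b * (starRingEnd ℂ) p) * (1 + (starRingEnd ℂ) b * x)) := by
    unfold HY.S
    rw [map_div₀, map_add, map_add, map_mul, map_one, Complex.conj_conj, div_mul_div_comm, ← HY.MOB_cc,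
      eq_div_iff (mul_ne_zero hpc hx'), sub_mul, div_mul_cancel₀ _ (mul_ne_zero hpc hx')]
    ring
  have e3 : HY.T (HY.S b p) (HY.S b x) = HY.T p x * ((1 + b * (starRingEnd ℂ) p) / (1 + (starRingEnd ℂ) b * p)) := by
    unfold HY.T
    rw [e1, e2]
    exact aux_div hone hx' hp' hpx hpc
  have e4 : ‖(1 + b * (starRingEnd ℂ) p) / (1 + (starRingEnd ℂ) b * p)‖ = 1 := by
    have : 1 + b * (starRingEnd ℂ) p = (starRingEnd ℂ) (1 + (starRingEnd ℂ) b * p) := by simp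
    rw [norm_div, this, RCLike.norm_conj, div_self (norm_ne_zero_iff.mpr hp')]
  rw [e3, norm_mul, e4, mul_one]

lemma T_eq_zero {p w : ℂ} (hp : ‖p‖ < 1) (hw : ‖w‖ < 1) : HY.T p w = 0 ↔ w = p := by
  unfold HY.T
  rw [div_eq_zero_iff, or_iff_left (HY.MOB_ne hp hw), sub_eq_zero]

lemma Bm_lt {n : ℕ} (hn : 0 < n) {b w : ℂ} (hb : ‖b‖ < 1) (hw : ‖w‖ < 1) : ‖Bm n b w‖ < 1 := by
  unfold Bm
  exact HY.MOB_S_lt hb (by rw [norm_pow]; exact pow_lt_one₀ (norm_nonneg _) hw hn.ne')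

/-- one step identity. -/
lemma G_step {n : ℕ} (hn : 0 < n) {b e w : ℂ} (hb : ‖b‖ < 1) (he : ‖e‖ < 1) (hw : ‖w‖ < 1)
    (hne : Bm n b w ≠ Bm n b e) : ∑ ζ ∈ R n, G (ζ * e) w = G (Bm n b e) (Bm n b w) := by
  have hen : ‖e ^ n‖ < 1 := by rw [norm_pow]; exact pow_lt_one₀ (norm_nonneg _) he hn.ne'
  have hwn : ‖w ^ n‖ < 1 := by rw [norm_pow]; exact pow_lt_one₀ (norm_nonneg _) hw hn.ne'
  unfold G
  rw [Finset.sum_neg_distrib]
  congr 1
  rw [← Real.log_prod, prod_T hn]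
  · unfold Bm
    rw [T_SS hb hen hwn]
  · intro ζ hζ h0
    have hζe : ‖ζ * e‖ < 1 := by rw [norm_mul, norm_R hn hζ, one_mul]; exact he
    rw [norm_eq_zero, T_eq_zero hζe hw] at h0
    apply hne
    unfold Bm
    rw [h0, mul_pow, (mem_R hn).mp hζ, one_mul]

lemma exists_root {n : ℕ} (hn : 0 < n) {b e : ℂ} (hb : ‖b‖ < 1) (he : ‖e‖ < 1) :
    ∃ e' : ℂ, ‖e'‖ < 1 ∧ Bm n b e' = e := by
  obtain ⟨z, hz⟩ := IsAlgClosed.exists_pow_nat_eq (HY.T b e) hn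
  refine ⟨z, ?_, ?_⟩
  · have h1 : ‖z‖ ^ n < 1 := by
      rw [← norm_pow, hz]
      exact HY.MOB_T_lt hb he
    by_contra h2
    push Not at h2
    have := one_le_pow₀ (n := n) h2
    linarith
  · unfold Bm
    rw [hz]
    exact HY.MOB_ST hb he

/-- separation of the roots of unity. -/
lemma R_gap {n : ℕ} (_hn : 0 < n) : ∃ δ : ℝ, 0 < δ ∧ ∀ ζ ∈ R n, ∀ ξ ∈ R n, ζ ≠ ξ → δ ≤ ‖ζ - ξ‖ := by
  classical
  by_cases hne : ((R n ×ˢ R n).filter (fun p => p.1 ≠ p.2)).Nonempty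
  · obtain ⟨p, hp, hmin⟩ := Finset.exists_min_image _ (fun p : ℂ × ℂ => ‖p.1 - p.2‖) hne
    refine ⟨‖p.1 - p.2‖, ?_, ?_⟩
    · have := (Finset.mem_filter.mp hp).2
      exact norm_pos_iff.mpr (sub_ne_zero.mpr this)
    · intro ζ hζ ξ hξ hn'
      exact hmin (ζ, ξ) (Finset.mem_filter.mpr ⟨Finset.mem_product.mpr ⟨hζ, hξ⟩, hn'⟩)
  · refine ⟨1, one_pos, ?_⟩
    intro ζ hζ ξ hξ hn'
    exact absurd ⟨(ζ, ξ), Finset.mem_filter.mpr ⟨Finset.mem_product.mpr ⟨hζ, hξ⟩, hn'⟩⟩ hne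

/-- the other roots are far from `a`. -/
lemma far_roots {n : ℕ} (hn : 0 < n) : ∃ δ : ℝ, 0 < δ ∧ ∀ a e : ℂ, 1 / 2 ≤ ‖a‖ →
    ∃ ζ₀ ∈ R n, ∀ ζ ∈ R n, ζ ≠ ζ₀ → δ ≤ ‖a - ζ * e‖ := by
  obtain ⟨δ, hδ, hgap⟩ := R_gap hn
  refine ⟨min (1 / 4) (δ / 8), by positivity, ?_⟩
  intro a e ha
  have hR : (R n).Nonempty := ⟨1, (mem_R hn).mpr (one_pow n)⟩
  obtain ⟨ζ₀, hζ₀, hmin⟩ := Finset.exists_min_image (R n) (fun ζ => ‖a - ζ * e‖) hR
  refine ⟨ζ₀, hζ₀, ?_⟩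
  intro ζ hζ hne
  by_cases he : ‖e‖ < 1 / 4
  · have h1 : ‖a‖ - ‖ζ * e‖ ≤ ‖a - ζ * e‖ := norm_sub_norm_le _ _
    rw [norm_mul, norm_R hn hζ, one_mul] at h1
    exact (min_le_left _ _).trans (by linarith)
  · push Not at he
    have h1 := hmin ζ hζ
    have h2 := hgap ζ hζ ζ₀ hζ₀ hne
    have h3 : ‖(ζ - ζ₀) * e‖ ≤ ‖a - ζ * e‖ + ‖a - ζ₀ * e‖ := by
      have : (ζ - ζ₀) * e = (a - ζ₀ * e) - (a - ζ * e) := by ring
      rw [this]
      have := norm_sub_le (a - ζ₀ * e) (a - ζ * e)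
      linarith
    rw [norm_mul] at h3
    have h4 : δ * (1 / 4) ≤ ‖ζ - ζ₀‖ * ‖e‖ := mul_le_mul h2 he (by norm_num) (norm_nonneg _)
    refine (min_le_right _ _).trans ?_
    linarith

lemma one_sub_norm_le_log {p : ℂ} (hp : p ≠ 0) : 1 - ‖p‖ ≤ -Real.log ‖p‖ := by
  have h0 : 0 < ‖p‖ := norm_pos_iff.mpr hp
  have := Real.log_le_sub_one_of_pos h0
  linarith

/-- upper bound for the Green function. -/
lemma G_le {p a : ℂ} (hp : ‖p‖ < 1) (ha : ‖a‖ < 1) (hp0 : p ≠ 0) {δ : ℝ} (hδ : 0 < δ) (hd : δ ≤ ‖a - p‖) :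
    G p a ≤ 2 / δ ^ 2 * ((1 - ‖a‖) * (-Real.log ‖p‖)) := by
  have hne : HY.T p a ≠ 0 := by
    rw [Ne, T_eq_zero hp ha]
    rintro rfl
    simp at hd
    linarith
  have ht : 0 < ‖HY.T p a‖ := norm_pos_iff.mpr hne
  have h1 := HY.MOB_ratio hp ha
  -- -log t = (1/2)(-log t^2) <= (1/2) (1/t^2 - 1)
  have h2 : G p a ≤ (1 / 2) * (1 / ‖HY.T p a‖ ^ 2 - 1) := by
    unfold G
    have h3 : 0 < 1 / ‖HY.T p a‖ ^ 2 := by positivity
    have h4 := Real.log_le_sub_one_of_pos h3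
    rw [Real.log_div one_ne_zero (by positivity), Real.log_one, Real.log_pow] at h4
    push_cast at h4
    linarith
  have h5 : 1 / ‖HY.T p a‖ ^ 2 - 1 = (1 - ‖p‖ ^ 2) * (1 - ‖a‖ ^ 2) / ‖a - p‖ ^ 2 := by
    have hD : 0 < ‖1 - (starRingEnd ℂ) p * a‖ := norm_pos_iff.mpr (HY.MOB_ne hp ha)
    have hN : 0 < ‖a - p‖ := lt_of_lt_of_le hδ hd
    have e1 : ‖HY.T p a‖ ^ 2 = ‖a - p‖ ^ 2 / ‖1 - (starRingEnd ℂ) p * a‖ ^ 2 := by
      unfold HY.T
      rw [norm_div, div_pow]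
    rw [e1, ← HY.MOB_id p a]
    field_simp
  have hN : 0 < ‖a - p‖ := lt_of_lt_of_le hδ hd
  have h6 : (1 - ‖p‖ ^ 2) * (1 - ‖a‖ ^ 2) / ‖a - p‖ ^ 2 ≤ (2 * (-Real.log ‖p‖)) * (2 * (1 - ‖a‖)) / δ ^ 2 := by
    have hl := one_sub_norm_le_log hp0
    have hpn := norm_nonneg p
    have han := norm_nonneg a
    have k1 : 1 - ‖p‖ ^ 2 ≤ 2 * (-Real.log ‖p‖) := by nlinarith
    have k2 : 1 - ‖a‖ ^ 2 ≤ 2 * (1 - ‖a‖) := by nlinarith
    have k3 : 0 ≤ 1 - ‖a‖ ^ 2 := by nlinarith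
    have k4 : 0 ≤ 2 * (-Real.log ‖p‖) := by nlinarith
    apply div_le_div₀
    · have : 0 ≤ 2 * (1 - ‖a‖) := by linarith
      positivity
    · exact mul_le_mul k1 k2 k3 k4
    · positivity
    · exact pow_le_pow_left₀ hδ.le hd 2
  calc G p a ≤ (1 / 2) * (1 / ‖HY.T p a‖ ^ 2 - 1) := h2
    _ ≤ (1 / 2) * ((2 * (-Real.log ‖p‖)) * (2 * (1 - ‖a‖)) / δ ^ 2) := by rw [h5]; linarith
    _ = 2 / δ ^ 2 * ((1 - ‖a‖) * (-Real.log ‖p‖)) := by ring

lemma G_zero (w : ℂ) : G w 0 = -Real.log ‖w‖ := by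
  unfold G HY.T
  simp

lemma G_zero' (w : ℂ) : G 0 w = -Real.log ‖w‖ := by
  unfold G HY.T
  simp

/-- invariant of the induction -/
structure Inv (n : ℕ) (β a : ℕ → ℂ) (C θ : ℝ) (j : ℕ) (Z : Multiset ℂ) : Prop where
  lt : ∀ e ∈ Z, ‖e‖ < 1
  zero : ∀ e ∈ Z, E n β j e = 0
  one : 1 ≤ Z.card
  card : Z.card ≤ n ^ ((Finset.Icc 1 j).filter (fun i => ‖a i‖ ≤ θ)).card
  green : ∀ w : ℂ, ‖w‖ < 1 → E n β j w ≠ 0 → (Z.map (fun e => G e w)).sum ≤ -Real.log ‖E n β j w‖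
  mass : -Real.log ‖a 0‖ - C * ∑ i ∈ (Finset.Icc 1 j).filter (fun i => θ < ‖a i‖), (1 - ‖a i‖) * (-Real.log ‖E n β i 0‖) ≤
    (Z.map (fun e => G e (a j))).sum

lemma E_lt {n : ℕ} (hn : 0 < n) {β : ℕ → ℂ} : ∀ (j : ℕ), (∀ i < j, ‖β i‖ < 1) → ∀ w : ℂ, ‖w‖ < 1 → ‖E n β j w‖ < 1
  | 0, _, w, hw => hw
  | j + 1, hb, w, hw => by
    show ‖E n β j (Bm n (β j) w)‖ < 1
    exact E_lt hn j (fun i hi => hb i (by omega)) _ (Bm_lt hn (hb j (by omega)) hw)

lemma E_orb {n : ℕ} {β a : ℕ → ℂ} {t : ℕ} (h : OrbD n β a t) : ∀ j ≤ t, E n β j (a j) = a 0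
  | 0, _ => rfl
  | j + 1, hj => by
    show E n β j (Bm n (β j) (a (j + 1))) = a 0
    rw [← h.stp j (by omega)]
    exact E_orb h j (by omega)

lemma Icc_filter_succ (P : ℕ → Prop) [DecidablePred P] (j : ℕ) :
    (Finset.Icc 1 (j + 1)).filter P = if P (j + 1) then insert (j + 1) ((Finset.Icc 1 j).filter P)
      else (Finset.Icc 1 j).filter P := by
  have h : Finset.Icc 1 (j + 1) = insert (j + 1) (Finset.Icc 1 j) := by
    ext i
    simp only [Finset.mem_Icc, Finset.mem_insert]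
    omega
  rw [h, Finset.filter_insert]

/-- the step with all roots. -/
lemma inv_big {n : ℕ} (hn : 0 < n) {β a : ℕ → ℂ} {C θ : ℝ} {t : ℕ} (h : OrbD n β a t) (ha0 : a 0 ≠ 0)
    {j : ℕ} (hj : j < t) {Z : Multiset ℂ} (hZ : Inv n β a C θ j Z) (hbig : ‖a (j + 1)‖ ≤ θ)
    (r : ℂ → ℂ) (hr : ∀ e : ℂ, ‖e‖ < 1 → ‖r e‖ < 1 ∧ Bm n (β j) (r e) = e) :
    Inv n β a C θ (j + 1) (Z.bind (fun e => (R n).val.map (fun ζ => ζ * r e))) := by
  have hb : ‖β j‖ < 1 := HY.MOB_mem.mp (h.bet j hj)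
  have key : ∀ e ∈ Z, ∀ ζ ∈ R n, ‖ζ * r e‖ < 1 ∧ Bm n (β j) (ζ * r e) = e := by
    intro e he ζ hζ
    obtain ⟨h1, h2⟩ := hr e (hZ.lt e he)
    refine ⟨by rw [norm_mul, norm_R hn hζ, one_mul]; exact h1, ?_⟩
    unfold Bm at h2 ⊢
    rw [mul_pow, (mem_R hn).mp hζ, one_mul]
    exact h2
  -- the sum over the preimages
  have hsum : ∀ w : ℂ, ‖w‖ < 1 → E n β (j + 1) w ≠ 0 →
      ((Z.bind (fun e => (R n).val.map (fun ζ => ζ * r e))).map (fun e => G e w)).sum =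
        (Z.map (fun e => G e (Bm n (β j) w))).sum := by
    intro w hw hE
    rw [Multiset.map_bind, Multiset.sum_bind]
    congr 1
    apply Multiset.map_congr rfl
    intro e he
    rw [Multiset.map_map]
    have h1 : ((R n).val.map ((fun e => G e w) ∘ fun ζ => ζ * r e)).sum = ∑ ζ ∈ R n, G (ζ * r e) w := rfl
    rw [h1, G_step hn hb (hr e (hZ.lt e he)).1 hw, (hr e (hZ.lt e he)).2]
    rw [(hr e (hZ.lt e he)).2]
    intro h2
    apply hE
    show E n β j (Bm n (β j) w) = 0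
    rw [h2]
    exact hZ.zero e he
  refine ⟨?_, ?_, ?_, ?_, ?_, ?_⟩
  · intro e he
    rw [Multiset.mem_bind] at he
    obtain ⟨e₁, he₁, he₂⟩ := he
    rw [Multiset.mem_map] at he₂
    obtain ⟨ζ, hζ, rfl⟩ := he₂
    exact (key e₁ he₁ ζ hζ).1
  · intro e he
    rw [Multiset.mem_bind] at he
    obtain ⟨e₁, he₁, he₂⟩ := he
    rw [Multiset.mem_map] at he₂
    obtain ⟨ζ, hζ, rfl⟩ := he₂
    show E n β j (Bm n (β j) (ζ * r e₁)) = 0
    rw [(key e₁ he₁ ζ hζ).2]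
    exact hZ.zero e₁ he₁
  · rw [Multiset.card_bind]
    have h1 : (Multiset.map (Multiset.card ∘ fun e => (R n).val.map (fun ζ => ζ * r e)) Z).sum = Z.card * n := by
      have h2 : Multiset.map (Multiset.card ∘ fun e => (R n).val.map (fun ζ => ζ * r e)) Z = Multiset.map (fun _ => n) Z := by
        apply Multiset.map_congr rfl
        intro e _
        simp only [Function.comp, Multiset.card_map]
        exact card_R hn
      rw [h2, Multiset.map_const', Multiset.sum_replicate, smul_eq_mul]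
    rw [h1]
    exact Nat.mul_pos hZ.one hn
  · rw [Multiset.card_bind]
    have h1 : (Multiset.map (Multiset.card ∘ fun e => (R n).val.map (fun ζ => ζ * r e)) Z).sum = Z.card * n := by
      have h2 : Multiset.map (Multiset.card ∘ fun e => (R n).val.map (fun ζ => ζ * r e)) Z = Multiset.map (fun _ => n) Z := by
        apply Multiset.map_congr rfl
        intro e _
        simp only [Function.comp, Multiset.card_map]
        exact card_R hn
      rw [h2, Multiset.map_const', Multiset.sum_replicate, smul_eq_mul]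
    rw [h1, Icc_filter_succ, if_pos hbig, Finset.card_insert_of_notMem (by simp), pow_succ]
    exact Nat.mul_le_mul_right n hZ.card
  · intro w hw hE
    rw [hsum w hw hE]
    exact hZ.green _ (Bm_lt hn hb hw) hE
  · have hE : E n β (j + 1) (a (j + 1)) ≠ 0 := by
      rw [E_orb h (j + 1) hj]
      exact ha0
    rw [hsum _ (HY.MOB_mem.mp (h.mem (j + 1) hj)) hE, ← h.stp j hj, Icc_filter_succ,
      if_neg (not_lt.mpr hbig)]
    exact hZ.mass

/-- the step with one root. -/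
lemma inv_small {n : ℕ} (hn : 2 ≤ n) {β a : ℕ → ℂ} {C δ θ : ℝ} (hδ : 0 < δ) (hC : 2 / δ ^ 2 ≤ C) {t : ℕ}
    (h : OrbD n β a t) (ha0 : a 0 ≠ 0)
    {j : ℕ} (hj : j < t) (hv : E n β (j + 1) 0 ≠ 0) {Z : Multiset ℂ} (hZ : Inv n β a C θ j Z) (hsm : θ < ‖a (j + 1)‖)
    (r : ℂ → ℂ) (hr : ∀ e : ℂ, ‖e‖ < 1 → ‖r e‖ < 1 ∧ Bm n (β j) (r e) = e)
    (s : ℂ → ℂ) (hs : ∀ e : ℂ, s e ∈ R n ∧ ∀ ζ ∈ R n, ζ ≠ s e → δ ≤ ‖a (j + 1) - ζ * r e‖) :
    Inv n β a C θ (j + 1) (Z.map (fun e => s e * r e)) := by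
  have hn0 : 0 < n := by omega
  have hb : ‖β j‖ < 1 := HY.MOB_mem.mp (h.bet j hj)
  have key : ∀ e ∈ Z, ∀ ζ ∈ R n, ‖ζ * r e‖ < 1 ∧ Bm n (β j) (ζ * r e) = e := by
    intro e he ζ hζ
    obtain ⟨h1, h2⟩ := hr e (hZ.lt e he)
    refine ⟨by rw [norm_mul, norm_R hn0 hζ, one_mul]; exact h1, ?_⟩
    unfold Bm at h2 ⊢
    rw [mul_pow, (mem_R hn0).mp hζ, one_mul]
    exact h2
  have hstep : ∀ w : ℂ, ‖w‖ < 1 → E n β (j + 1) w ≠ 0 → ∀ e ∈ Z,
      ∑ ζ ∈ R n, G (ζ * r e) w = G e (Bm n (β j) w) := by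
    intro w hw hE e he
    rw [G_step hn0 hb (hr e (hZ.lt e he)).1 hw, (hr e (hZ.lt e he)).2]
    rw [(hr e (hZ.lt e he)).2]
    intro h2
    apply hE
    show E n β j (Bm n (β j) w) = 0
    rw [h2]
    exact hZ.zero e he
  have haj : ‖a (j + 1)‖ < 1 := HY.MOB_mem.mp (h.mem (j + 1) hj)
  have hEa : E n β (j + 1) (a (j + 1)) ≠ 0 := by
    rw [E_orb h (j + 1) hj]
    exact ha0
  -- r e ≠ 0
  have hre : ∀ e ∈ Z, r e ≠ 0 := by
    intro e he h0
    apply hv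
    show E n β j (Bm n (β j) 0) = 0
    have := (hr e (hZ.lt e he)).2
    rw [h0] at this
    rw [this]
    exact hZ.zero e he
  refine ⟨?_, ?_, ?_, ?_, ?_, ?_⟩
  · intro e he
    rw [Multiset.mem_map] at he
    obtain ⟨e₁, he₁, rfl⟩ := he
    exact (key e₁ he₁ _ (hs e₁).1).1
  · intro e he
    rw [Multiset.mem_map] at he
    obtain ⟨e₁, he₁, rfl⟩ := he
    show E n β j (Bm n (β j) (s e₁ * r e₁)) = 0
    rw [(key e₁ he₁ _ (hs e₁).1).2]
    exact hZ.zero e₁ he₁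
  · rw [Multiset.card_map]
    exact hZ.one
  · rw [Multiset.card_map, Icc_filter_succ, if_neg (not_le.mpr hsm)]
    exact hZ.card
  · intro w hw hE
    refine le_trans ?_ (hZ.green _ (Bm_lt hn0 hb hw) hE)
    rw [Multiset.map_map]
    apply Multiset.sum_map_le_sum_map
    intro e he
    rw [← hstep w hw hE e he]
    show G (s e * r e) w ≤ _
    exact Finset.single_le_sum (f := fun ζ => G (ζ * r e) w)
      (fun ζ hζ => G_nonneg (key e he ζ hζ).1 hw) (hs e).1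
  · rw [Icc_filter_succ, if_pos hsm, Finset.sum_insert (by simp), Multiset.map_map]
    -- the loss
    have h0 := hZ.green (Bm n (β j) 0) (Bm_lt hn0 hb (by simp)) hv
    have h1 : (Z.map (fun e => (n : ℝ) * (-Real.log ‖r e‖))).sum ≤ -Real.log ‖E n β (j + 1) 0‖ := by
      refine le_trans (le_of_eq ?_) h0
      congr 1
      apply Multiset.map_congr rfl
      intro e he
      rw [← hstep 0 (by simp) hv e he]
      have h2 : ∀ ζ ∈ R n, G (ζ * r e) 0 = -Real.log ‖r e‖ := by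
        intro ζ hζ
        rw [G_zero, norm_mul, norm_R hn0 hζ, one_mul]
      rw [Finset.sum_congr rfl h2, Finset.sum_const, card_R hn0, nsmul_eq_mul]
    have h3 : ∀ e ∈ Z, G e (a j) - C * (1 - ‖a (j + 1)‖) * ((n : ℝ) * (-Real.log ‖r e‖)) ≤ G (s e * r e) (a (j + 1)) := by
      intro e he
      have h4 := hstep (a (j + 1)) haj hEa e he
      rw [← h.stp j hj] at h4
      rw [← h4, ← Finset.add_sum_erase (R n) (fun ζ => G (ζ * r e) (a (j + 1))) (hs e).1]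
      have h5 : ∑ ζ ∈ (R n).erase (s e), G (ζ * r e) (a (j + 1)) ≤
          C * (1 - ‖a (j + 1)‖) * ((n : ℝ) * (-Real.log ‖r e‖)) := by
        have hl : 0 ≤ -Real.log ‖r e‖ := by
          have := Real.log_nonpos (norm_nonneg (r e)) (hr e (hZ.lt e he)).1.le
          linarith
        have h6 : ∀ ζ ∈ (R n).erase (s e), G (ζ * r e) (a (j + 1)) ≤ C * (1 - ‖a (j + 1)‖) * (-Real.log ‖r e‖) := by
          intro ζ hζ
          have hζ1 := Finset.mem_of_mem_erase hζ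
          have hζ2 := Finset.ne_of_mem_erase hζ
          have hz0 : ζ ≠ 0 := by
            intro h7
            have := norm_R hn0 hζ1
            rw [h7, norm_zero] at this
            exact zero_ne_one this
          have h7 := G_le (key e he ζ hζ1).1 haj (mul_ne_zero hz0 (hre e he)) hδ ((hs e).2 ζ hζ1 hζ2)
          rw [norm_mul, norm_R hn0 hζ1, one_mul] at h7
          refine h7.trans ?_
          rw [mul_assoc]
          exact mul_le_mul_of_nonneg_right hC (mul_nonneg (by linarith) hl)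
        refine (Finset.sum_le_card_nsmul _ _ _ h6).trans ?_
        rw [nsmul_eq_mul]
        have h8 : (((R n).erase (s e)).card : ℝ) ≤ n := by
          have := Finset.card_erase_le (s := R n) (a := s e)
          rw [card_R hn0] at this
          exact_mod_cast this
        have hC0 : 0 ≤ C := le_trans (by positivity) hC
        have h9 : 0 ≤ C * (1 - ‖a (j + 1)‖) * (-Real.log ‖r e‖) := mul_nonneg (mul_nonneg hC0 (by linarith)) hl
        calc (((R n).erase (s e)).card : ℝ) * (C * (1 - ‖a (j + 1)‖) * (-Real.log ‖r e‖))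
            ≤ n * (C * (1 - ‖a (j + 1)‖) * (-Real.log ‖r e‖)) := mul_le_mul_of_nonneg_right h8 h9
          _ = _ := by ring
      linarith
    have h4 : (Z.map (fun e => G e (a j) - C * (1 - ‖a (j + 1)‖) * ((n : ℝ) * (-Real.log ‖r e‖)))).sum ≤
        (Z.map ((fun e => G e (a (j + 1))) ∘ fun e => s e * r e)).sum := Multiset.sum_map_le_sum_map _ _ h3
    have h5 : (Z.map (fun e => G e (a j) - C * (1 - ‖a (j + 1)‖) * ((n : ℝ) * (-Real.log ‖r e‖)))).sum =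
        (Z.map (fun e => G e (a j))).sum - C * (1 - ‖a (j + 1)‖) * (Z.map (fun e => (n : ℝ) * (-Real.log ‖r e‖))).sum := by
      rw [Multiset.sum_map_sub, Multiset.sum_map_mul_left]
    have hC0 : 0 ≤ C := le_trans (by positivity) hC
    have h6 : C * (1 - ‖a (j + 1)‖) * (Z.map (fun e => (n : ℝ) * (-Real.log ‖r e‖))).sum ≤
        C * (1 - ‖a (j + 1)‖) * (-Real.log ‖E n β (j + 1) 0‖) :=
      mul_le_mul_of_nonneg_left h1 (mul_nonneg hC0 (by linarith))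
    have h7 := hZ.mass
    have h8 : C * ((1 - ‖a (j + 1)‖) * (-Real.log ‖E n β (j + 1) 0‖) +
        ∑ i ∈ (Finset.Icc 1 j).filter (fun i => θ < ‖a i‖), (1 - ‖a i‖) * (-Real.log ‖E n β i 0‖)) =
        C * (1 - ‖a (j + 1)‖) * (-Real.log ‖E n β (j + 1) 0‖) +
        C * ∑ i ∈ (Finset.Icc 1 j).filter (fun i => θ < ‖a i‖), (1 - ‖a i‖) * (-Real.log ‖E n β i 0‖) := by ring
    rw [h8]
    linarith

theorem MASS : MASS_stmt := by
  intro n hn
  have hn0 : 0 < n := by omega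
  obtain ⟨δ, hδ, hfar⟩ := far_roots hn0
  refine ⟨2 / δ ^ 2, by positivity, ?_⟩
  intro β a t θ h ha0 hv hθ hθ1
  have hex : ∀ j : ℕ, j ≤ t → ∃ Z : Multiset ℂ, Inv n β a (2 / δ ^ 2) θ j Z := by
    intro j
    induction j with
    | zero =>
      intro _
      refine ⟨{0}, ?_, ?_, ?_, ?_, ?_, ?_⟩
      · intro e he
        rw [Multiset.mem_singleton] at he
        rw [he, norm_zero]
        exact one_pos
      · intro e he
        rw [Multiset.mem_singleton] at he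
        rw [he]
        rfl
      · simp
      · simp
      · intro w hw hE
        simp only [Multiset.map_singleton, Multiset.sum_singleton]
        rw [G_zero']
        rfl
      · simp [G_zero']
    | succ j ih =>
      intro hj
      obtain ⟨Z, hZ⟩ := ih (by omega)
      have hb : ‖β j‖ < 1 := HY.MOB_mem.mp (h.bet j hj)
      have hr : ∀ e : ℂ, ∃ e' : ℂ, ‖e‖ < 1 → ‖e'‖ < 1 ∧ Bm n (β j) e' = e := by
        intro e
        by_cases he : ‖e‖ < 1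
        · obtain ⟨e', h1⟩ := exists_root hn0 hb he
          exact ⟨e', fun _ => h1⟩
        · exact ⟨0, fun h1 => absurd h1 he⟩
      choose r hr using hr
      by_cases hbig : ‖a (j + 1)‖ ≤ θ
      · exact ⟨_, inv_big hn0 h ha0 hj hZ hbig r hr⟩
      · push Not at hbig
        have hs : ∀ e : ℂ, ∃ ζ₀ ∈ R n, ∀ ζ ∈ R n, ζ ≠ ζ₀ → δ ≤ ‖a (j + 1) - ζ * r e‖ :=
          fun e => hfar (a (j + 1)) (r e) (by linarith)
        choose s hs1 hs2 using hs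
        exact ⟨_, inv_small hn hδ le_rfl h ha0 hj (hv (j + 1) (by omega) hj) hZ hbig r hr s
          (fun e => ⟨hs1 e, hs2 e⟩)⟩
  obtain ⟨Z, hZ⟩ := hex t le_rfl
  -- pigeonhole
  set M : ℝ := -Real.log ‖a 0‖ - 2 / δ ^ 2 * ∑ j ∈ (Finset.Icc 1 t).filter (fun j => θ < ‖a j‖),
    (1 - ‖a j‖) * (-Real.log ‖E n β j 0‖) with hM
  set N := ((Finset.Icc 1 t).filter (fun j => ‖a j‖ ≤ θ)).card with hN
  have hat : ‖a t‖ < 1 := HY.MOB_mem.mp (h.mem t le_rfl)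
  by_contra hcon
  push Not at hcon
  have hlt : ∀ e ∈ Z, G e (a t) < M / (n : ℝ) ^ N := by
    intro e he
    have h1 := hcon e (HY.MOB_mem.mpr (hZ.lt e he)) (hZ.zero e he)
    rw [HY.MOB_symm (a t) e] at h1
    exact h1
  have hne : Z ≠ 0 := by
    intro h0
    have := hZ.one
    rw [h0] at this
    simp at this
  obtain ⟨e₁, he₁⟩ := Multiset.exists_mem_of_ne_zero hne
  have hpos : 0 < M / (n : ℝ) ^ N := lt_of_le_of_lt (G_nonneg (hZ.lt e₁ he₁) hat) (hlt e₁ he₁)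
  have hnN : (0 : ℝ) < (n : ℝ) ^ N := by positivity
  have hMpos : 0 < M := by
    have := mul_pos hpos hnN
    rwa [div_mul_cancel₀ _ hnN.ne'] at this
  have hsum : (Z.map (fun e => G e (a t))).sum < (Z.map (fun _ => M / (n : ℝ) ^ N)).sum :=
    Multiset.sum_lt_sum_of_nonempty hne hlt
  rw [Multiset.map_const', Multiset.sum_replicate, nsmul_eq_mul] at hsum
  have hcard : (Z.card : ℝ) ≤ (n : ℝ) ^ N := by exact_mod_cast hZ.card
  have h2 : (Z.card : ℝ) * (M / (n : ℝ) ^ N) ≤ (n : ℝ) ^ N * (M / (n : ℝ) ^ N) :=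
    mul_le_mul_of_nonneg_right hcard hpos.le
  rw [mul_div_cancel₀ _ hnN.ne'] at h2
  have h3 := hZ.mass
  linarith

end MS
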