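import Pool.Agent.helper75.MS.Defs

/-!
# M1a: moments of the Weil sums
-/

set_option linter.unusedSectionVars false

namespace Pool.Agent.helper75.MS

open Finset

section M1a
variable {p : ℕ} [Fact p.Prime] {K : Type} [Field K] [Fintype K] [DecidableEq K]
  [Algebra (ZMod p) K]
variable {L : Type} [Field L] [CharZero L] {ψ : AddChar (ZMod p) L}

/-- the additive character of `K` obtained from `ψ` -/
noncomputable def psiK (ψ : AddChar (ZMod p) L) : AddChar K L :=
  ψ.compAddMonoidHom (Algebra.trace (ZMod p) K).toAddMonoidHom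

lemma psiK_apply (ψ : AddChar (ZMod p) L) (x : K) :
    psiK ψ x = ψ (Algebra.trace (ZMod p) K x) := rfl

lemma psiK_ne (hψ : ψ ≠ 1) : psiK (K := K) ψ ≠ 1 := by
  intro h
  apply hψ
  ext c
  obtain ⟨x, hx⟩ := Algebra.trace_surjective (ZMod p) K c
  have := congrArg (fun f : AddChar K L => f x) h
  simp only [psiK_apply, hx] at this
  simpa using this

lemma sum_psiK (hψ : ψ ≠ 1) {n : ℕ} (hq : Fintype.card K = p ^ n) (b : K) :
    ∑ a : K, psiK ψ (a * b) = if b = 0 then (p : L) ^ n else 0 := by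
  rw [AddChar.sum_mulShift b (AddChar.IsPrimitive.of_ne_one (psiK_ne hψ)), hq]
  split_ifs <;> simp

lemma W_eq (ψ : AddChar (ZMod p) L) (d : ℕ) (a : K) :
    W p ψ d a = ∑ x : K, psiK ψ (a * x - x ^ d) := rfl

lemma card_sub_one {n : ℕ} (hp : 3 < p) (hn : 0 < n) : 4 ≤ p ^ n - 1 := by
  have : p ^ 1 ≤ p ^ n := Nat.pow_le_pow_right (by omega) hn
  rw [pow_one] at this
  have h5 : 5 ≤ p := by
    rcases Nat.lt_or_ge 4 p with h | h
    · omega
    · have : p = 4 := by omega
      have hpr : Nat.Prime p := Fact.out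
      rw [this] at hpr
      exact absurd hpr (by norm_num)
  omega

lemma d_odd {d n : ℕ} (hp : 3 < p) (hn : 0 < n) (hd : Nat.Coprime d (p ^ n - 1)) : Odd d := by
  have hpr : Nat.Prime p := Fact.out
  have hpo : Odd p := hpr.odd_of_ne_two (by omega)
  have hev : Even (p ^ n - 1) := by
    have : Odd (p ^ n) := hpo.pow
    obtain ⟨k, hk⟩ := this
    exact ⟨k, by omega⟩
  rcases Nat.even_or_odd d with h | h
  · exfalso
    have h2 : 2 ∣ Nat.gcd d (p ^ n - 1) := Nat.dvd_gcd h.two_dvd hev.two_dvd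
    rw [hd] at h2
    omega
  · exact h

lemma pow_inj {d n : ℕ} (hp : 3 < p) (hq : Fintype.card K = p ^ n) (hn : 0 < n)
    (hd : Nat.Coprime d (p ^ n - 1)) : Function.Injective (fun x : K => x ^ d) := by
  have h4 := card_sub_one (p := p) hp hn
  have hd0 : d ≠ 0 := by
    rintro rfl
    rw [Nat.coprime_zero_left] at hd
    omega
  intro x y hxy
  simp only at hxy
  by_cases hx : x = 0
  · subst hx
    rw [zero_pow hd0] at hxy
    exact ((pow_eq_zero_iff hd0).1 hxy.symm).symm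
  · have hy : y ≠ 0 := by
      rintro rfl
      rw [zero_pow hd0] at hxy
      exact hx ((pow_eq_zero_iff hd0).1 hxy)
    have h1 : (x / y) ^ d = 1 := by
      rw [div_pow, hxy, div_self (pow_ne_zero _ hy)]
    have h2 : (x / y) ^ (p ^ n - 1) = 1 := by
      rw [← hq]
      exact FiniteField.pow_card_sub_one_eq_one _ (div_ne_zero hx hy)
    have h3 : (x / y) ^ (Nat.gcd d (p ^ n - 1)) = 1 := pow_gcd_eq_one.2 ⟨h1, h2⟩
    rw [hd, pow_one] at h3
    exact (div_eq_one_iff_eq hy).1 h3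

lemma pow_bij {d n : ℕ} (hp : 3 < p) (hq : Fintype.card K = p ^ n) (hn : 0 < n)
    (hd : Nat.Coprime d (p ^ n - 1)) : Function.Bijective (fun x : K => x ^ d) :=
  Finite.injective_iff_bijective.1 (pow_inj hp hq hn hd)

lemma sum_pow {M : Type*} [AddCommMonoid M] {d n : ℕ} (hp : 3 < p) (hq : Fintype.card K = p ^ n)
    (hn : 0 < n) (hd : Nat.Coprime d (p ^ n - 1)) (f : K → M) :
    ∑ x : K, f (x ^ d) = ∑ x : K, f x :=
  Function.Bijective.sum_comp (pow_bij hp hq hn hd) f

lemma sum_neg {M : Type*} [AddCommMonoid M] (f : K → M) :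
    ∑ x : K, f (-x) = ∑ x : K, f x :=
  Equiv.sum_comp (Equiv.neg K) f

theorem W_zero (hψ : ψ ≠ 1) {d n : ℕ} (hp : 3 < p) (hq : Fintype.card K = p ^ n) (hn : 0 < n)
    (hd : Nat.Coprime d (p ^ n - 1)) : W p ψ d (0 : K) = 0 := by
  rw [W_eq]
  have h1 : ∀ x : K, psiK ψ (0 * x - x ^ d) = (fun y : K => psiK ψ (-y)) (x ^ d) := by
    intro x; simp
  rw [Finset.sum_congr rfl (fun x _ => h1 x), sum_pow hp hq hn hd (fun y : K => psiK ψ (-y)),
    sum_neg (fun y : K => psiK ψ y)]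
  have := sum_psiK (K := K) hψ hq 1
  simpa using this

theorem W_sum (hψ : ψ ≠ 1) {d n : ℕ} (hp : 3 < p) (hq : Fintype.card K = p ^ n) (hn : 0 < n)
    (hd : Nat.Coprime d (p ^ n - 1)) : ∑ a : K, W p ψ d a = (p : L) ^ n := by
  have hd0 : d ≠ 0 := (d_odd hp hn hd).pos.ne'
  simp only [W_eq, sub_eq_add_neg, AddChar.map_add_eq_mul]
  rw [Finset.sum_comm]
  simp only [← Finset.sum_mul, sum_psiK hψ hq]
  simp [hd0]

theorem W_sq (hψ : ψ ≠ 1) {d n : ℕ} (hp : 3 < p) (hq : Fintype.card K = p ^ n) (hn : 0 < n)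
    (hd : Nat.Coprime d (p ^ n - 1)) (l : K) (hl : l ≠ 0) :
    ∑ a : K, W p ψ d a * W p ψ d (l * a) = if l = 1 then (p : L) ^ (2 * n) else 0 := by
  have hd0 : d ≠ 0 := (d_odd hp hn hd).pos.ne'
  have hodd := d_odd hp hn hd
  have hS : ∑ a : K, W p ψ d a * W p ψ d (l * a)
      = ∑ y : K, ∑ x : K, (∑ a : K, psiK ψ (a * (x + l * y))) * psiK ψ (- x ^ d - y ^ d) := by
    simp only [W_eq, Finset.sum_mul_sum]
    rw [Finset.sum_comm]
    rw [Finset.sum_congr rfl (fun x _ => Finset.sum_comm)]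
    rw [Finset.sum_comm]
    refine Finset.sum_congr rfl fun y _ => Finset.sum_congr rfl fun x _ => ?_
    rw [Finset.sum_mul]
    refine Finset.sum_congr rfl fun a _ => ?_
    rw [← AddChar.map_add_eq_mul, ← AddChar.map_add_eq_mul]
    congr 1
    ring
  rw [hS]
  have h1 : ∀ y : K, ∑ x : K, (∑ a : K, psiK ψ (a * (x + l * y))) * psiK ψ (- x ^ d - y ^ d)
      = (p : L) ^ n * psiK ψ (y ^ d * (l ^ d - 1)) := by
    intro y
    rw [Finset.sum_eq_single (-(l * y))]
    · rw [sum_psiK hψ hq]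
      simp only [neg_add_cancel, if_true]
      congr 2
      rw [hodd.neg_pow, mul_pow]
      ring
    · intro x _ hx
      rw [sum_psiK hψ hq, if_neg, zero_mul]
      intro h
      exact hx (eq_neg_of_add_eq_zero_left h)
    · intro h
      exact absurd (Finset.mem_univ _) h
  rw [Finset.sum_congr rfl (fun y _ => h1 y), ← Finset.mul_sum,
    sum_pow hp hq hn hd (fun y => psiK ψ (y * (l ^ d - 1))), sum_psiK hψ hq]
  have h2 : l ^ d - 1 = 0 ↔ l = 1 := by
    rw [sub_eq_zero]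
    constructor
    · intro h
      exact pow_inj hp hq hn hd (by simpa using h)
    · rintro rfl; simp
  simp only [h2]
  split_ifs
  · rw [two_mul, pow_add]
  · simp

theorem W_cube (hψ : ψ ≠ 1) {d n : ℕ} (hp : 3 < p) (hq : Fintype.card K = p ^ n) (hn : 0 < n)
    (hd : Nat.Coprime d (p ^ n - 1)) (l : K) (hl : l ≠ 0) :
    ∑ a : K, W p ψ d a ^ 2 * W p ψ d (l * a) = (p : L) ^ (2 * n) * V d l := by
  have hd0 : d ≠ 0 := (d_odd hp hn hd).pos.ne'
  have hodd := d_odd hp hn hd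
  have hS : ∑ a : K, W p ψ d a ^ 2 * W p ψ d (l * a)
      = ∑ z : K, ∑ y : K, ∑ x : K, (∑ a : K, psiK ψ (a * (x + y + l * z))) *
        psiK ψ (- x ^ d - y ^ d - z ^ d) := by
    simp only [W_eq, pow_two, Finset.sum_mul, Finset.mul_sum]
    rw [Finset.sum_comm]
    refine Finset.sum_congr rfl fun z _ => ?_
    rw [Finset.sum_comm]
    refine Finset.sum_congr rfl fun y _ => ?_
    rw [Finset.sum_comm]
    refine Finset.sum_congr rfl fun x _ => Finset.sum_congr rfl fun a _ => ?_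
    rw [← AddChar.map_add_eq_mul, ← AddChar.map_add_eq_mul, ← AddChar.map_add_eq_mul]
    congr 1
    ring
  rw [hS]
  have h1 : ∀ z : K, ∑ y : K, ∑ x : K, (∑ a : K, psiK ψ (a * (x + y + l * z))) *
        psiK ψ (- x ^ d - y ^ d - z ^ d)
      = (p : L) ^ n * ∑ t : K, psiK ψ (z ^ d * (l ^ d * (t ^ d + (1 - t) ^ d) - 1)) := by
    intro z
    have h2 : ∀ y : K, ∑ x : K, (∑ a : K, psiK ψ (a * (x + y + l * z))) *
        psiK ψ (- x ^ d - y ^ d - z ^ d)
        = (p : L) ^ n * psiK ψ ((y + l * z) ^ d - y ^ d - z ^ d) := by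
      intro y
      rw [Finset.sum_eq_single (-(y + l * z))]
      · rw [sum_psiK hψ hq, if_pos (by ring)]
        congr 2
        rw [hodd.neg_pow]
        ring
      · intro x _ hx
        rw [sum_psiK hψ hq, if_neg, zero_mul]
        intro h
        exact hx (eq_neg_of_add_eq_zero_left (by rw [← h]; ring))
      · intro h
        exact absurd (Finset.mem_univ _) h
    rw [Finset.sum_congr rfl (fun y _ => h2 y), ← Finset.mul_sum]
    congr 1
    by_cases hz : z = 0
    · subst hz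
      simp [hd0]
    · have hlz : -(l * z) ≠ 0 := neg_ne_zero.2 (mul_ne_zero hl hz)
      rw [← Equiv.sum_comp (Equiv.mulLeft₀ (-(l * z)) hlz)]
      refine Finset.sum_congr rfl fun t _ => ?_
      congr 1
      simp only [Equiv.mulLeft₀_apply]
      have e1 : (-(l * z) * t + l * z) = (l * z) * (1 - t) := by ring
      rw [e1, mul_pow, mul_pow, mul_pow, hodd.neg_pow, mul_pow]
      ring
  rw [Finset.sum_congr rfl (fun z _ => h1 z), ← Finset.mul_sum, Finset.sum_comm]
  have h3 : ∀ t : K, ∑ z : K, psiK ψ (z ^ d * (l ^ d * (t ^ d + (1 - t) ^ d) - 1))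
      = if l ^ d * (t ^ d + (1 - t) ^ d) = 1 then (p : L) ^ n else 0 := by
    intro t
    rw [sum_pow hp hq hn hd (fun z => psiK ψ (z * (l ^ d * (t ^ d + (1 - t) ^ d) - 1))),
      sum_psiK hψ hq]
    simp only [sub_eq_zero]
  rw [Finset.sum_congr rfl (fun t _ => h3 t), ← Finset.sum_filter, Finset.sum_const, nsmul_eq_mul]
  rw [two_mul, pow_add, V]
  ring

end M1a

end Pool.Agent.helper75.MS
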