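import Pool.Agent.helper52.HY.Spec

/-!
# MS: the pure disc part of block mm: (Theorem A), helper36 (architect helper94)

Level `j` = `V_(k+j)`, `ψ_j : UD → V_(k+j)` the Riemann map with `ψ_j 0 = 0`, `ψ_j (β j) = c`, `f(ψ_(j+1) w) = ψ_j (S (β j) (w^n))` (this is `HY.SG`).
`E n β j` is `f^j : V_(k+j) → V_k` in these coordinates, `a j` is the position of `x_(t-j)` in level `j`, `E n β j 0` is the position of `f^j 0` in level `0`.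
Namespace `MS`. Tools: `HY.MOB` (Pool/Agent/helper25/HY/MOB.lean), `HY.KAP`.
-/

set_option autoImplicit false

open Complex Metric Set Filter Topology

noncomputable section

namespace MS

/-- one step in the coordinates of the disc: `w ↦ S b (w^n)`. -/
def Bm (n : ℕ) (b w : ℂ) : ℂ := HY.S b (w ^ n)

/-- `E n β j = B_0 ∘ B_1 ∘ ... ∘ B_(j-1)`, from level `j` to level `0`. -/
def E (n : ℕ) (β : ℕ → ℂ) : ℕ → ℂ → ℂ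
  | 0, w => w
  | j + 1, w => E n β j (Bm n (β j) w)

/-- an orbit `a t, ..., a 0` of the model (level `t` down to level `0`). -/
structure OrbD (n : ℕ) (β a : ℕ → ℂ) (t : ℕ) : Prop where
  bet : ∀ j < t, β j ∈ HY.UD
  mem : ∀ j ≤ t, a j ∈ HY.UD
  stp : ∀ j < t, a j = Bm n (β j) (a (j + 1))

/-- MASS (helper94, SHORTEND section 4), owner helper36.
PROOF. `G p w = -log ‖T p w‖`. One step identity: `∏_{ζ^n=1} ‖T (ζ e') w‖ = ‖T (e'^n) (w^n)‖ = ‖T e (Bm b w)‖`, `e = Bm b e'`. Downward induction: finite multisets `Z_j` of zeros of `E j` in `UD` with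
`∑_{e ∈ Z_j} G e w ≤ G 0 (E j w)` (`E j w ≠ 0`), `1 ≤ card Z_j ≤ n^N_j`, and `∑_{e ∈ Z_j} G e (a j) ≥ -log‖a 0‖ - C ∑`. Step `j → j+1`: if `‖a (j+1)‖ ≤ θ` all `n` roots `ζ e'`, if `θ < ‖a (j+1)‖` only the root nearest to `a (j+1)`:
the others have `‖a - ζ e'‖ ≥ δ_n`, so `G (ζ e') a ≤ (1-‖a‖²)(1-‖e'‖²)/(2‖a-ζ e'‖²) ≤ C (1-‖a‖)(-log ‖e'‖)` and `∑ n (-log ‖e'‖) ≤ -log ‖E (j+1) 0‖`. -/
def MASS_stmt : Prop := ∀ n : ℕ, 2 ≤ n → ∃ C : ℝ, 0 < C ∧ ∀ (β a : ℕ → ℂ) (t : ℕ) (θ : ℝ), OrbD n β a t →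
  a 0 ≠ 0 → (∀ j, 1 ≤ j → j ≤ t → E n β j 0 ≠ 0) → 1 / 2 ≤ θ → θ < 1 →
  ∃ e ∈ HY.UD, E n β t e = 0 ∧
    (-Real.log ‖a 0‖ - C * ∑ j ∈ (Finset.Icc 1 t).filter (fun j => θ < ‖a j‖), (1 - ‖a j‖) * (-Real.log ‖E n β j 0‖)) /
      (n : ℝ) ^ ((Finset.Icc 1 t).filter (fun j => ‖a j‖ ≤ θ)).card ≤ -Real.log ‖HY.T (a t) e‖

/-- LOSS (SHORTEND section 5). Uses HY.MOB, HY.KAP.
PROOF. `e_j` := the orbit of `e` (`e_t = e`, `e_j = Bm (β j) (e_(j+1))`, `e_0 = 0`, `E j e_j = 0`). Schwarz-Pick: `‖T (a j) (e_j)‖ ≤ q` for all `j ≤ t`. Hyperbolic derivative of `E t` at `e`: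
`‖(E t)' e‖ (1-‖e‖²) = ∏_{j=1..t} K(‖e_j‖)`, `K(r) = n r^(n-1) (1-r²)/(1-r^(2n)) ≥ r^(n-1)` (the step `x ↦ x^n` at `e_j`, `S b` is an isometry).
If `1-‖a j‖ ≤ (1-q)²/4`: `1-‖e_j‖² = (1-‖a j‖²)(1-‖u‖²)/‖1+conj(a j) u‖² ≤ (1-‖a j‖²)/(1-q)²`, so `1-‖e_j‖ ≤ 2(1-‖a j‖)/(1-q)² ≤ 1/2` and KAP: `K ≥ exp(-2n²(1-‖e_j‖)²) ≥ exp(-8n²(1-‖a j‖)²/(1-q)^4)`.
If not: there are at most `16 A/(1-q)^4` such `j`, and `‖e_j‖ ≥ ‖E j 0‖ ≥ v₀` (Schwarz-Pick: `‖E j 0‖ = ‖T (E j e_j) (E j 0)‖ ≤ ‖T e_j 0‖ = ‖e_j‖`), `K ≥ v₀^(n-1)`. -/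
def LOSS_stmt : Prop := ∀ n : ℕ, 2 ≤ n → ∀ (A q v₀ : ℝ), 0 ≤ q → q < 1 → 0 < v₀ → ∃ c : ℝ, 0 < c ∧
  ∀ (β a : ℕ → ℂ) (t : ℕ) (e : ℂ), OrbD n β a t → e ∈ HY.UD → E n β t e = 0 → ‖HY.T (a t) e‖ ≤ q →
  ∑ j ∈ Finset.Icc 1 t, (1 - ‖a j‖) ^ 2 ≤ A →
  (∀ j, 1 ≤ j → j ≤ t → (1 - q) ^ 2 / 4 < 1 - ‖a j‖ → v₀ ≤ ‖E n β j 0‖) →
  c ≤ ‖deriv (E n β t) e‖ * (1 - ‖e‖ ^ 2)

/-- LANDAU. Uses HY.MOB.
PROOF. `F₁ = F ∘ S e`, `F₁ 0 = 0`, `‖F₁' 0‖ = ‖F' e‖(1-‖e‖²) ≥ c`. `F₁ w = w g(w)` with `‖g‖ ≤ 1`, `g` is `2`-Lipschitz-like near `0`: `‖F₁' w - F₁' 0‖ ≤ 8‖w‖` for `‖w‖ ≤ 1/4`: on `ball 0 (c/32)` `F₁` is injective (mean value inequality on a convex set)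
and its image contains `ball 0 (c²/64)` (Rouche / `ApproximatesLinearOn` / minimum principle). `G y = S e (F₁^(-1)(c₂ y))`, `c₂ = c²/64`; the inverse of an injective holomorphic map is holomorphic (`HY.PDC_inv` in Pool/Agent/helper99/HY/PDC.lean). -/
def LANDAU_stmt : Prop := ∀ c : ℝ, 0 < c → ∃ c₂ : ℝ, 0 < c₂ ∧ c₂ < 1 ∧ ∀ (F : ℂ → ℂ) (e : ℂ),
  DifferentiableOn ℂ F HY.UD → MapsTo F HY.UD HY.UD → e ∈ HY.UD → F e = 0 → c ≤ ‖deriv F e‖ * (1 - ‖e‖ ^ 2) →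
  ∃ G : ℂ → ℂ, HY.UN G ∧ G 0 = e ∧ ∀ y ∈ HY.UD, F (G y) = c₂ * y

end MS
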