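import Mathlib

/-!
# M2b: the arithmetic of the case of two conjugate values
-/

namespace Pool.Agent.helper75.MS

theorem conj_case (p n N NC : ℕ) (hp : p.Prime) (hp3 : 3 < p) (hn : 0 < n) (X Y C : ℤ)
    (hN : 1 ≤ N) (hNC : 1 ≤ NC) (h0 : (2 * N + NC : ℤ) = (p : ℤ) ^ n - 1)
    (h1 : (N * X + NC * C : ℤ) = (p : ℤ) ^ n)
    (h2 : (N * (X ^ 2 - 2 * Y) + NC * C ^ 2 : ℤ) = (p : ℤ) ^ (2 * n))
    (h3 : (2 * N * Y + NC * C ^ 2 : ℤ) = 0)
    (h4 : ¬ IsSquare (X ^ 2 - 4 * Y)) : False := by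
  have : Fact p.Prime := ⟨hp⟩
  have hp0 : (p : ℤ) ≠ 0 := by exact_mod_cast hp.ne_zero
  -- N divides p^(2n)
  have hmul : (N : ℤ) * (X ^ 2 - 4 * Y) = (p : ℤ) ^ (2 * n) := by linarith
  have hdiv : N ∣ p ^ (2 * n) := by
    have : (N : ℤ) ∣ (p : ℤ) ^ (2 * n) := ⟨_, hmul.symm⟩
    exact_mod_cast this
  obtain ⟨m, hm, hNm⟩ := (Nat.dvd_prime_pow hp).1 hdiv
  have hXY : X ^ 2 - 4 * Y = (p : ℤ) ^ (2 * n - m) := by
    have e : (p : ℤ) ^ (2 * n) = (N : ℤ) * (p : ℤ) ^ (2 * n - m) := by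
      rw [hNm]; push_cast; rw [← pow_add]; congr 1; omega
    rw [e] at hmul
    exact mul_left_cancel₀ (by exact_mod_cast (by omega : N ≠ 0)) hmul
  have hodd : Odd m := by
    rcases Nat.even_or_odd m with he | ho
    · exfalso
      apply h4
      rw [hXY]
      obtain ⟨k, hk⟩ := he
      refine ⟨(p : ℤ) ^ (n - k), ?_⟩
      rw [← pow_add]
      congr 1
      omega
    · exact ho
  -- m < n
  have hlt : m < n := by
    by_contra hge
    push Not at hge
    have h5 : p ^ n ≤ p ^ m := Nat.pow_le_pow_right hp.pos hge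
    have h6 : ((p : ℤ) ^ n) ≤ (N : ℤ) := by rw [hNm]; exact_mod_cast h5
    have : (0 : ℤ) ≤ N := by positivity
    have : (1 : ℤ) ≤ NC := by exact_mod_cast hNC
    linarith
  set t : ℤ := (p : ℤ) ^ m with ht
  set r : ℤ := (p : ℤ) ^ (n - m) with hr
  set u : ℤ := (NC : ℤ) with hu
  have hNt : (N : ℤ) = t := by rw [hNm, ht]; push_cast; rfl
  have htr : (p : ℤ) ^ n = t * r := by rw [ht, hr, ← pow_add]; congr 1; omega
  have hq2 : (p : ℤ) ^ (2 * n) = (t * r) ^ 2 := by rw [← htr]; ring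
  have ht0 : t ≠ 0 := pow_ne_zero _ hp0
  have hr0 : r ≠ 0 := pow_ne_zero _ hp0
  rw [hNt] at h0 h1 h2 h3 hmul
  rw [htr] at h0 h1
  rw [hq2] at h2 hmul
  obtain ⟨C1, hC1⟩ : ∃ C1, C = t * C1 := ⟨(r - 2) * C - (r - X), by
    have hu' : u = t * r - 1 - 2 * t := by linarith
    rw [hu'] at h1
    linear_combination (-1 : ℤ) * h1⟩
  have hX : X = r - u * C1 := by
    have : t * X = t * (r - u * C1) := by rw [hC1] at h1; linear_combination h1
    exact mul_left_cancel₀ ht0 this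
  have hY : 2 * Y = - u * t * C1 ^ 2 := by
    have : t * (2 * Y) = t * (- u * t * C1 ^ 2) := by rw [hC1] at h3; linear_combination h3
    exact mul_left_cancel₀ ht0 this
  have hXY2 : X ^ 2 - 4 * Y = t * r ^ 2 := by
    have : t * (X ^ 2 - 4 * Y) = t * (t * r ^ 2) := by rw [hmul]; ring
    exact mul_left_cancel₀ ht0 this
  have hu' : u = t * r - 1 - 2 * t := by linarith
  have key : (u * (t * r - 1) * C1 - r * u) ^ 2 = r ^ 2 * u * t * (t * r - 3) := by
    have e1 : (r - u * C1) ^ 2 + 2 * (u * t * C1 ^ 2) = t * r ^ 2 := by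
      rw [← hX]; linear_combination hXY2 + 2 * hY
    have e2 : u + 2 * t = t * r - 1 := by linarith
    -- u (u + 2 t) C1^2 - 2 r u C1 + r^2 - t r^2 = 0
    have e3 : u * (t * r - 1) * C1 ^ 2 - 2 * r * u * C1 + r ^ 2 - t * r ^ 2 = 0 := by
      rw [← e2]; linear_combination e1
    have e4 : r ^ 2 * u * t * (t * r - 3) = r ^ 2 * u ^ 2 + u * (t * r - 1) * (t - 1) * r ^ 2 := by
      rw [hu']; ring
    rw [e4]
    linear_combination u * (t * r - 1) * e3
  -- valuation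
  have hq : p ^ n = p ^ m * p ^ (n - m) := by rw [← pow_add]; congr 1; omega
  have hqgt : 3 < p ^ n := lt_of_lt_of_le hp3 (by
    calc p = p ^ 1 := (pow_one p).symm
      _ ≤ p ^ n := Nat.pow_le_pow_right hp.pos hn)
  have hnat : ((u * (t * r - 1) * C1 - r * u).natAbs) ^ 2
      = (p ^ (n - m)) ^ 2 * NC * p ^ m * (p ^ n - 3) := by
    have : (((u * (t * r - 1) * C1 - r * u).natAbs ^ 2 : ℕ) : ℤ)
        = (((p ^ (n - m)) ^ 2 * NC * p ^ m * (p ^ n - 3) : ℕ) : ℤ) := by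
      push_cast [Nat.cast_sub hqgt.le]
      rw [sq_abs, key, htr]
    exact_mod_cast this
  have hpNC : ¬ p ∣ NC := by
    intro h
    have h7 : (p : ℤ) ∣ u := by rw [hu]; exact_mod_cast h
    have h8 : (p : ℤ) ∣ t := dvd_pow_self _ hodd.pos.ne'
    have h9 : (p : ℤ) ∣ 1 := by
      have : (1 : ℤ) = t * r - 2 * t - u := by linarith
      rw [this]
      exact dvd_sub (dvd_sub (h8.mul_right _) (h8.mul_left _)) h7
    have := Int.le_of_dvd one_pos h9
    omega
  have hpq : ¬ p ∣ (p ^ n - 3) := by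
    intro h
    have h7 : p ∣ p ^ n := dvd_pow_self _ hn.ne'
    have h8 : p ∣ 3 := by
      have := (Nat.dvd_sub h7 h)
      rwa [Nat.sub_sub_self hqgt.le] at this
    have := Nat.le_of_dvd (by norm_num) h8
    omega
  have hq3 : p ^ n - 3 ≠ 0 := by omega
  have hZ0 : (u * (t * r - 1) * C1 - r * u).natAbs ≠ 0 := by
    intro h
    rw [h] at hnat
    have : (p ^ (n - m)) ^ 2 * NC * p ^ m * (p ^ n - 3) ≠ 0 := by
      have := hp.ne_zero
      positivity
    exact this (by rw [← hnat]; norm_num)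
  have hv := congrArg (padicValNat p) hnat
  have hpm : p ^ m ≠ 0 := pow_ne_zero _ hp.ne_zero
  have hpnm : (p ^ (n - m)) ^ 2 ≠ 0 := pow_ne_zero _ (pow_ne_zero _ hp.ne_zero)
  rw [padicValNat.pow, padicValNat.mul (by positivity) hq3, padicValNat.mul (by positivity) hpm,
    padicValNat.mul hpnm (by omega), padicValNat.eq_zero_of_not_dvd hpNC,
    padicValNat.eq_zero_of_not_dvd hpq, ← pow_mul, padicValNat.prime_pow, padicValNat.prime_pow] at hv
  obtain ⟨k, hk⟩ := hodd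
  omega

end Pool.Agent.helper75.MS
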