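import Pool.Agent.helper36.MS.M1a
import Pool.Agent.helper36.MS.M2b

/-!
# M2a: three values force `d ≡ 1 mod p - 1` (Galois argument)
-/

set_option linter.unusedSectionVars false

namespace Pool.Agent.helper75.MS

open Finset Polynomial
noncomputable section
variable (p : ℕ) [Fact p.Prime] (F : Type) [Field F] [CharZero F] [Algebra ℚ F]
  [IsCyclotomicExtension {p} ℚ F]

def zL : F := IsCyclotomicExtension.zeta p ℚ F

lemma zL_prim : IsPrimitiveRoot (zL p F) p := IsCyclotomicExtension.zeta_spec p ℚ F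

def psiL : AddChar (ZMod p) F := AddChar.zmodChar p (zL_prim p F).pow_eq_one

lemma psiL_apply (c : ZMod p) : psiL p F c = zL p F ^ c.val := AddChar.zmodChar_apply _ _

lemma psiL_one : psiL p F 1 = zL p F := by
  have hp : p.Prime := Fact.out
  have : Fact (1 < p) := ⟨hp.one_lt⟩
  rw [psiL_apply, ZMod.val_one, pow_one]

lemma psiL_ne : psiL p F ≠ 1 := by
  intro h
  have hp : p.Prime := Fact.out
  have := psiL_one p F
  rw [h, AddChar.one_apply] at this
  exact (zL_prim p F).ne_one hp.one_lt this.symm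

/-- the automorphism `ζ ↦ ζ^j` -/
def sig (j : (ZMod p)ˣ) : F ≃ₐ[ℚ] F :=
  (IsCyclotomicExtension.autEquivPow F
    (cyclotomic.irreducible_rat (Fact.out : p.Prime).pos)).symm j

lemma sig_z (j : (ZMod p)ˣ) : sig p F j (zL p F) = zL p F ^ (j : ZMod p).val := by
  have h := IsPrimitiveRoot.autToPow_spec ℚ (zL_prim p F) (sig p F j)
  rw [← h]
  congr 2
  exact (congrArg Units.val ((IsCyclotomicExtension.autEquivPow F
    (cyclotomic.irreducible_rat (Fact.out : p.Prime).pos)).apply_symm_apply j))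

lemma sig_psi (j : (ZMod p)ˣ) (c : ZMod p) : sig p F j (psiL p F c) = psiL p F (j * c) := by
  rw [psiL_apply, map_pow, sig_z, ← pow_mul, mul_comm, pow_mul, ← psiL_apply]
  rw [← AddChar.map_nsmul_eq_pow]
  congr 1
  rw [nsmul_eq_mul, ZMod.natCast_zmod_val]

lemma psiL_int (c : ZMod p) : IsIntegral ℤ (psiL p F c) := by
  rw [psiL_apply]
  exact ((zL_prim p F).isIntegral (Fact.out : p.Prime).pos).pow _

lemma fixed_int (j : (ZMod p)ˣ) (hj : ∀ x, x ∈ Subgroup.zpowers j) (x : F)
    (hx : IsIntegral ℤ x) (hf : sig p F j x = x) : ∃ z : ℤ, x = z := by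
  have : IsGalois ℚ F := IsCyclotomicExtension.isGalois {p} ℚ _
  have : FiniteDimensional ℚ F := IsCyclotomicExtension.finiteDimensional {p} ℚ _
  have h1 : ∀ f : F ≃ₐ[ℚ] F, f x = x := by
    intro f
    set e := IsCyclotomicExtension.autEquivPow F
      (cyclotomic.irreducible_rat (Fact.out : p.Prime).pos) with he
    obtain ⟨k, hk⟩ := hj (e f)
    have h2 : f = (sig p F j) ^ k := by
      apply e.injective
      rw [map_zpow, ← hk]
      simp only [sig]
      rw [← he, e.apply_symm_apply]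
    rw [h2]
    have h3 : (sig p F j) ∈ MulAction.stabilizer (F ≃ₐ[ℚ] F) x := hf
    have h4 := Subgroup.zpow_mem _ h3 k
    exact h4
  have h5 : x ∈ (⊥ : IntermediateField ℚ F) :=
    (IsGalois.mem_bot_iff_fixed x).2 h1
  rw [IntermediateField.mem_bot] at h5
  obtain ⟨r, rfl⟩ := h5
  have h6 : IsIntegral ℤ r :=
    (isIntegral_algebraMap_iff (algebraMap ℚ F).injective).1 hx
  obtain ⟨z, hz⟩ := (IsIntegrallyClosed.isIntegral_iff (R := ℤ) (K := ℚ)).1 h6
  refine ⟨z, ?_⟩
  rw [← hz]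
  simp

/-- the embedding into `ℂ` -/
lemma exists_toC : ∃ f : F →+* ℂ, ∀ c, f (psiL p F c) = ZMod.stdAddChar c := by
  have hp : p.Prime := Fact.out
  have hst : (ZMod.stdAddChar (N := p)) 1 = Complex.exp (2 * Real.pi * Complex.I / p) := by
    have := ZMod.stdAddChar_coe (N := p) 1
    simpa using this
  have hpr : IsPrimitiveRoot ((ZMod.stdAddChar (N := p)) 1) p := by
    rw [hst]
    exact Complex.isPrimitiveRoot_exp p hp.ne_zero
  let pb := (zL_prim p F).powerBasis ℚ
  have hgen : pb.gen = zL p F := IsPrimitiveRoot.powerBasis_gen ℚ (zL_prim p F)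
  have hroot : aeval ((ZMod.stdAddChar (N := p)) 1) (minpoly ℚ pb.gen) = 0 := by
    rw [hgen, ← (zL_prim p F).minpoly_eq_cyclotomic_of_irreducible
      (cyclotomic.irreducible_rat hp.pos), aeval_def, eval₂_eq_eval_map,
      map_cyclotomic]
    exact (hpr.isRoot_cyclotomic hp.pos)
  let f := pb.lift _ hroot
  refine ⟨f.toRingHom, fun c => ?_⟩
  have hf : f (zL p F) = (ZMod.stdAddChar (N := p)) 1 := by
    rw [← hgen]; exact pb.lift_gen _ hroot
  show f (psiL p F c) = _
  rw [psiL_apply, map_pow, hf, ← AddChar.map_nsmul_eq_pow]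
  congr 1
  simp
end

lemma exists_F (p : ℕ) [Fact p.Prime] : ∃ (F : Type) (_ : Field F) (_ : CharZero F) (_ : Algebra ℚ F),
    IsCyclotomicExtension {p} ℚ F :=
  ⟨CyclotomicField p ℚ, inferInstance, inferInstance, CyclotomicField.algebra p ℚ,
    CyclotomicField.isCyclotomicExtension p ℚ⟩

section arg
lemma card_sub_one' {p n : ℕ} (hpr : p.Prime) (hp : 3 < p) (hn : 0 < n) : (5 : ℤ) ≤ (p : ℤ) ^ n := by
  have : Fact p.Prime := ⟨hpr⟩
  have h := card_sub_one (p := p) hp hn
  have h2 : 5 ≤ p ^ n := by omega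
  exact_mod_cast h2

variable {K : Type} [Field K] [Fintype K] [DecidableEq K]
variable {F : Type} [Field F] [CharZero F] [Algebra ℚ F]

/-- the data of a three-valued Weil sum with a Galois automorphism -/
structure Dat (p n : ℕ) (f : K → F) (σ : F ≃ₐ[ℚ] F) (m : K) (A B C : F) : Prop where
  val : ∀ a, a ≠ 0 → f a = A ∨ f a = B ∨ f a = C
  hA : ∃ a, a ≠ 0 ∧ f a = A
  hB : ∃ a, a ≠ 0 ∧ f a = B
  hC : ∃ a, a ≠ 0 ∧ f a = C
  AB : A ≠ B
  AC : A ≠ C
  BC : B ≠ C
  s : ∀ a, σ (f a) = f (m * a)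
  m0 : m ≠ 0
  fixed : ∀ x, IsIntegral ℤ x → σ x = x → ∃ z : ℤ, x = z
  int : ∀ a, IsIntegral ℤ (f a)
  f0 : f 0 = 0
  s1 : ∑ a, f a = (p : F) ^ n
  s2 : ∑ a, f a * f a = (p : F) ^ (2 * n)
  s3 : ∑ a, f a * f (m * a) = 0
  card : Fintype.card K = p ^ n
  prime : p.Prime
  p3 : 3 < p
  n0 : 0 < n

variable {p n : ℕ} {f : K → F} {σ : F ≃ₐ[ℚ] F} {m : K} {A B C : F}

lemma Dat.swap12 (h : Dat p n f σ m A B C) : Dat p n f σ m B A C :=
  { h with
    val := fun a ha => by rcases h.val a ha with h | h | h <;> tauto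
    hA := h.hB
    hB := h.hA
    AB := h.AB.symm
    AC := h.BC
    BC := h.AC }

lemma Dat.swap23 (h : Dat p n f σ m A B C) : Dat p n f σ m A C B :=
  { h with
    val := fun a ha => by rcases h.val a ha with h | h | h <;> tauto
    hB := h.hC
    hC := h.hB
    AB := h.AC
    AC := h.AB
    BC := h.BC.symm }

open Classical in
/-- number of nonzero `a` with value `v` -/
noncomputable def Nv (f : K → F) (v : F) : ℕ := (univ.filter fun a : K => a ≠ 0 ∧ f a = v).card

open Classical in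
lemma Dat.sum (h : Dat p n f σ m A B C) (g : F → F) (g' : K → F) (hg : ∀ a, a ≠ 0 → g' a = g (f a)) :
    ∑ a ∈ univ.filter (fun a : K => a ≠ 0), g' a = Nv f A * g A + Nv f B * g B + Nv f C * g C := by
  have hU : univ.filter (fun a : K => a ≠ 0) = (univ.filter fun a : K => a ≠ 0 ∧ f a = A) ∪
      ((univ.filter fun a : K => a ≠ 0 ∧ f a = B) ∪ (univ.filter fun a : K => a ≠ 0 ∧ f a = C)) := by
    ext a
    simp only [mem_filter, mem_univ, true_and, mem_union]
    constructor
    · intro ha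
      rcases h.val a ha with h | h | h <;> tauto
    · tauto
  rw [hU, Finset.sum_union, Finset.sum_union]
  · have e : ∀ v : F, ∑ a ∈ univ.filter (fun a : K => a ≠ 0 ∧ f a = v), g' a = Nv f v * g v := by
      intro v
      rw [Finset.sum_congr rfl (g := fun _ => g v), Finset.sum_const, nsmul_eq_mul, Nv]
      intro a ha
      simp only [mem_filter, mem_univ, true_and] at ha
      rw [hg a ha.1, ha.2]
    rw [e, e, e, add_assoc]
  · rw [Finset.disjoint_left]
    intro a ha hb
    simp only [mem_filter, mem_univ, true_and] at ha hb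
    exact h.BC (ha.2.symm.trans hb.2)
  · rw [Finset.disjoint_left]
    intro a ha hb
    simp only [mem_filter, mem_univ, true_and, mem_union] at ha hb
    rcases hb with hb | hb
    · exact h.AB (ha.2.symm.trans hb.2)
    · exact h.AC (ha.2.symm.trans hb.2)

lemma sum_ne_zero_eq (g : K → F) (h0 : g 0 = 0) :
    ∑ a : K, g a = ∑ a ∈ univ.filter (fun a : K => a ≠ 0), g a := by
  rw [Finset.sum_filter]
  refine Finset.sum_congr rfl fun a _ => ?_
  split_ifs with ha
  · rfl
  · push Not at ha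
    rw [ha, h0]

lemma Dat.cnt (h : Dat p n f σ m A B C) :
    (Nv f A : F) + Nv f B + Nv f C = (p : F) ^ n - 1 := by
  have h1 := h.sum (fun _ => 1) (fun _ => 1) (fun _ _ => rfl)
  simp only [mul_one] at h1
  rw [← h1]
  have h2 := sum_ne_zero_eq (K := K) (F := F) (fun a => if a = 0 then 0 else 1) (by simp)
  rw [Finset.sum_const, nsmul_eq_mul, mul_one, Finset.filter_ne', Finset.card_erase_of_mem (mem_univ _),
    Finset.card_univ, h.card, Nat.cast_sub (Nat.one_le_pow _ _ h.prime.pos)]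
  simp

lemma Dat.m1 (h : Dat p n f σ m A B C) :
    (Nv f A : F) * A + Nv f B * B + Nv f C * C = (p : F) ^ n := by
  rw [← h.s1, sum_ne_zero_eq _ h.f0]
  exact (h.sum (fun x => x) f (fun _ _ => rfl)).symm

lemma Dat.m2 (h : Dat p n f σ m A B C) :
    (Nv f A : F) * A ^ 2 + Nv f B * B ^ 2 + Nv f C * C ^ 2 = (p : F) ^ (2 * n) := by
  rw [← h.s2, sum_ne_zero_eq _ (by simp [h.f0])]
  exact (h.sum (fun x => x ^ 2) _ (fun _ _ => by ring)).symm

lemma Dat.m3 (h : Dat p n f σ m A B C) :
    (Nv f A : F) * (A * σ A) + Nv f B * (B * σ B) + Nv f C * (C * σ C) = 0 := by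
  rw [← h.s3, sum_ne_zero_eq _ (by simp [h.f0])]
  exact (h.sum (fun x => x * σ x) _ (fun a _ => by rw [h.s])).symm

lemma Dat.Nσ (h : Dat p n f σ m A B C) (v : F) : Nv f (σ v) = Nv f v := by
  classical
  symm
  unfold Nv
  refine Finset.card_bij (fun a _ => m * a) ?_ ?_ ?_
  · intro a ha
    simp only [mem_filter, mem_univ, true_and] at ha ⊢
    refine ⟨mul_ne_zero h.m0 ha.1, ?_⟩
    rw [← h.s, ha.2]
  · intro a _ b _ hab
    exact mul_left_cancel₀ h.m0 hab
  · intro b hb
    simp only [mem_filter, mem_univ, true_and] at hb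
    refine ⟨m⁻¹ * b, ?_, ?_⟩
    · simp only [mem_filter, mem_univ, true_and]
      refine ⟨mul_ne_zero (inv_ne_zero h.m0) hb.1, ?_⟩
      apply σ.injective
      rw [h.s, mul_inv_cancel_left₀ h.m0, hb.2]
    · exact mul_inv_cancel_left₀ h.m0 b

lemma Dat.intA (h : Dat p n f σ m A B C) : IsIntegral ℤ A := by
  obtain ⟨a, _, rfl⟩ := h.hA
  exact h.int a

lemma Dat.NA1 (h : Dat p n f σ m A B C) : 1 ≤ Nv f A := by
  obtain ⟨a, ha, rfl⟩ := h.hA
  classical
  exact Finset.card_pos.2 ⟨a, by simp [ha]⟩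

lemma Dat.p0 (h : Dat p n f σ m A B C) : (p : F) ≠ 0 := by
  exact_mod_cast h.prime.ne_zero

/-- case (i) -/
lemma Dat.case_id (h : Dat p n f σ m A B C) (hA : σ A = A) (hB : σ B = B) (hC : σ C = C) : False := by
  have h1 := h.m3
  rw [hA, hB, hC] at h1
  have h2 := h.m2
  have h3 : (p : F) ^ (2 * n) = 0 := by rw [← h2, ← h1]; ring
  exact pow_ne_zero _ h.p0 h3

/-- case (ii) -/
lemma Dat.case_cycle (h : Dat p n f σ m A B C) (hA : σ A = B) (hB : σ B = C) (hC : σ C = A) :
    False := by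
  have hN1 : Nv f B = Nv f A := by rw [← hA, h.Nσ]
  have hN2 : Nv f C = Nv f A := by rw [← hB, h.Nσ, hN1]
  have hint : IsIntegral ℤ (A + B + C) :=
    (h.intA.add h.swap12.intA).add h.swap23.swap12.intA
  obtain ⟨z, hz⟩ := h.fixed (A + B + C) hint (by rw [map_add, map_add, hA, hB, hC]; ring)
  have h0 := h.cnt
  have h1 := h.m1
  rw [hN1, hN2] at h0 h1
  have h2 : (Nv f A : F) * z = (p : F) ^ n := by rw [← hz, ← h1]; ring
  have h0' : (3 * (Nv f A : ℤ) : ℤ) = (p : ℤ) ^ n - 1 := by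
    have : ((3 * (Nv f A : ℤ) : ℤ) : F) = (((p : ℤ) ^ n - 1 : ℤ) : F) := by
      push_cast; rw [← h0]; ring
    exact_mod_cast this
  have h2' : (Nv f A : ℤ) * z = (p : ℤ) ^ n := by
    have : (((Nv f A : ℤ) * z : ℤ) : F) = (((p : ℤ) ^ n : ℤ) : F) := by
      push_cast; exact h2
    exact_mod_cast this
  have h4 := card_sub_one' h.prime h.p3 h.n0
  have hd : (Nv f A : ℤ) ∣ 1 := by
    have e : (1 : ℤ) = (Nv f A : ℤ) * z - 3 * (Nv f A : ℤ) := by linarith
    rw [e]
    exact dvd_sub (dvd_mul_right _ _) (dvd_mul_left _ _)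
  have h5 := Int.le_of_dvd one_pos hd
  linarith

/-- case (iii) -/
lemma Dat.case_swap (h : Dat p n f σ m A B C) (hA : σ A = B) (hB : σ B = A) (hC : σ C = C) :
    False := by
  have hN1 : Nv f B = Nv f A := by rw [← hA, h.Nσ]
  obtain ⟨c, hc⟩ := h.fixed C h.swap23.swap12.intA hC
  obtain ⟨x, hx⟩ := h.fixed (A + B) (h.intA.add h.swap12.intA) (by rw [map_add, hA, hB]; ring)
  obtain ⟨y, hy⟩ := h.fixed (A * B) (h.intA.mul h.swap12.intA) (by rw [map_mul, hA, hB]; ring)
  have h0 := h.cnt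
  have h1 := h.m1
  have h2 := h.m2
  have h3 := h.m3
  rw [hN1] at h0 h1 h2 h3
  rw [hA, hB, hC] at h3
  refine conj_case p n (Nv f A) (Nv f C) h.prime h.p3 h.n0 x y c h.NA1 h.swap23.swap12.NA1 ?_ ?_ ?_ ?_ ?_
  · have : ((2 * (Nv f A : ℤ) + Nv f C : ℤ) : F) = (((p : ℤ) ^ n - 1 : ℤ) : F) := by
      push_cast; rw [← h0]; ring
    exact_mod_cast this
  · have : (((Nv f A : ℤ) * x + Nv f C * c : ℤ) : F) = (((p : ℤ) ^ n : ℤ) : F) := by
      push_cast; rw [← h1, ← hx, ← hc]; ring
    exact_mod_cast this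
  · have : (((Nv f A : ℤ) * (x ^ 2 - 2 * y) + Nv f C * c ^ 2 : ℤ) : F)
        = (((p : ℤ) ^ (2 * n) : ℤ) : F) := by
      push_cast; rw [← h2, ← hx, ← hy, ← hc]; ring
    exact_mod_cast this
  · have : ((2 * (Nv f A : ℤ) * y + Nv f C * c ^ 2 : ℤ) : F) = ((0 : ℤ) : F) := by
      push_cast; rw [← h3, ← hy, ← hc]; ring
    exact_mod_cast this
  · rintro ⟨s, hs⟩
    have h5 : (A - B) ^ 2 = (s : F) ^ 2 := by
      have : ((x ^ 2 - 4 * y : ℤ) : F) = ((s * s : ℤ) : F) := by rw [hs]
      push_cast at this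
      rw [← hx, ← hy] at this
      linear_combination this
    have h6 : σ (A - B) = A - B := by
      rcases sq_eq_sq_iff_eq_or_eq_neg.1 h5 with h6 | h6
      · rw [h6]; exact map_intCast σ s
      · rw [h6, map_neg]; rw [map_intCast σ s]
    rw [map_sub, hA, hB] at h6
    apply h.AB
    have h7 : (2 : F) * (A - B) = 0 := by linear_combination -h6
    rcases mul_eq_zero.1 h7 with h8 | h8
    · exact absurd h8 two_ne_zero
    · exact sub_eq_zero.1 h8

theorem Dat.false (h : Dat p n f σ m A B C) : False := by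
  have hs : ∀ v, (∃ a, a ≠ 0 ∧ f a = v) → σ v = A ∨ σ v = B ∨ σ v = C := by
    rintro v ⟨a, ha, rfl⟩
    rw [h.s]
    exact h.val _ (mul_ne_zero h.m0 ha)
  have hi : ∀ u v, σ u = σ v → u = v := fun u v h => σ.injective h
  rcases hs A h.hA with hA | hA | hA
  · rcases hs B h.hB with hB | hB | hB
    · exact h.AB (hi _ _ (hA.trans hB.symm))
    · rcases hs C h.hC with hC | hC | hC
      · exact h.AC (hi _ _ (hA.trans hC.symm))
      · exact h.BC (hi _ _ (hB.trans hC.symm))
      · exact h.case_id hA hB hC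
    · rcases hs C h.hC with hC | hC | hC
      · exact h.AC (hi _ _ (hA.trans hC.symm))
      · -- B ↔ C
        exact h.swap12.swap23.case_swap hB hC hA
      · exact h.BC (hi _ _ (hB.trans hC.symm))
  · rcases hs B h.hB with hB | hB | hB
    · rcases hs C h.hC with hC | hC | hC
      · exact h.BC (hi _ _ (hB.trans hC.symm))
      · exact h.AC (hi _ _ (hA.trans hC.symm))
      · exact h.case_swap hA hB hC
    · exact h.AB (hi _ _ (hA.trans hB.symm))
    · rcases hs C h.hC with hC | hC | hC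
      · exact h.case_cycle hA hB hC
      · exact h.AC (hi _ _ (hA.trans hC.symm))
      · exact h.BC (hi _ _ (hB.trans hC.symm))
  · rcases hs B h.hB with hB | hB | hB
    · rcases hs C h.hC with hC | hC | hC
      · exact h.BC (hi _ _ (hB.trans hC.symm))
      · -- A → C → B → A
        exact h.swap23.case_cycle hA hC hB
      · exact h.AC (hi _ _ (hA.trans hC.symm))
    · rcases hs C h.hC with hC | hC | hC
      · -- A ↔ C
        exact h.swap23.case_swap hA hC hB
      · exact h.BC (hi _ _ (hB.trans hC.symm))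
      · exact h.AC (hi _ _ (hA.trans hC.symm))
    · exact h.AB (hi _ _ (hA.trans hB.symm))

end arg

section main

variable {p n d : ℕ} [Fact p.Prime] {K : Type} [Field K] [Fintype K] [DecidableEq K]
    [Algebra (ZMod p) K]
variable {F : Type} [Field F] [CharZero F] [Algebra ℚ F] [IsCyclotomicExtension {p} ℚ F]

lemma W_int (d : ℕ) (a : K) : IsIntegral ℤ (W p (psiL p F) d a) :=
  IsIntegral.sum _ fun _ _ => psiL_int p F _

lemma sig_W (d : ℕ) (ν : (ZMod p)ˣ) (a : K) :
    sig p F (ν ^ d)⁻¹ (W p (psiL p F) d a) =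
      W p (psiL p F) d (algebraMap (ZMod p) K ((ν * (ν ^ d)⁻¹ : (ZMod p)ˣ) : ZMod p) * a) := by
  have hν : algebraMap (ZMod p) K (ν : ZMod p) ≠ 0 := by
    rw [Ne, map_eq_zero_iff _ (algebraMap (ZMod p) K).injective]
    exact ν.ne_zero
  unfold W
  rw [map_sum, ← Equiv.sum_comp (Equiv.mulLeft₀ (algebraMap (ZMod p) K (ν : ZMod p)) hν)]
  refine Finset.sum_congr rfl fun y _ => ?_
  rw [sig_psi]
  congr 1
  unfold T
  rw [← smul_eq_mul, ← map_smul]
  congr 1
  rw [Algebra.smul_def, Equiv.mulLeft₀_apply, Units.val_mul, map_mul, mul_pow, ← map_pow]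
  have h1 : algebraMap (ZMod p) K (((ν ^ d)⁻¹ : (ZMod p)ˣ) : ZMod p) *
      algebraMap (ZMod p) K ((ν : ZMod p) ^ d) = 1 := by
    rw [← map_mul, ← Units.val_pow_eq_pow_val, ← Units.val_mul, inv_mul_cancel, Units.val_one, map_one]
  linear_combination (- y ^ d) * h1

theorem deg_one (hp : 3 < p) (hn : 0 < n) (hq : Fintype.card K = p ^ n)
    (hd : Nat.Coprime d (p ^ n - 1))
    (h3 : (Set.range fun c : Kˣ => W p (ZMod.stdAddChar (N := p)) d (c : K)).ncard = 3) :
    d ≡ 1 [MOD p - 1] := by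
  classical
  have hpr : p.Prime := Fact.out
  obtain ⟨F, _, _, _, _⟩ := exists_F p
  obtain ⟨ι, hι⟩ := exists_toC p F
  obtain ⟨ν, hν⟩ := IsCyclic.exists_generator (α := (ZMod p)ˣ)
  have hcard : Fintype.card (ZMod p)ˣ = p - 1 := ZMod.card_units p
  have hord : orderOf ν = p - 1 := by
    rw [orderOf_eq_card_of_forall_mem_zpowers hν, Nat.card_eq_fintype_card, hcard]
  have hdvd : p - 1 ∣ p ^ n - 1 := by
    have := Nat.sub_dvd_pow_sub_pow p 1 n
    rwa [one_pow] at this
  have hcop : Nat.Coprime d (p - 1) := Nat.Coprime.coprime_dvd_right hdvd hd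
  by_contra hne
  have hμ : ν * (ν ^ d)⁻¹ ≠ 1 := by
    intro h
    rw [mul_inv_eq_one] at h
    have h' : ν ^ d = ν ^ 1 := by rw [pow_one]; exact h.symm
    rw [pow_eq_pow_iff_modEq, hord] at h'
    exact hne h'
  set μ : (ZMod p)ˣ := ν * (ν ^ d)⁻¹ with hμdef
  have hgen : ∀ x, x ∈ Subgroup.zpowers (ν ^ d)⁻¹ := by
    intro x
    have hc : (Nat.card (ZMod p)ˣ).Coprime d := by
      rw [Nat.card_eq_fintype_card, hcard]; exact hcop.symm
    obtain ⟨y, hy⟩ := (powCoprime hc).surjective x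
    obtain ⟨k, hk⟩ := hν y
    refine ⟨-k, ?_⟩
    simp only at hk ⊢
    rw [← hy, ← hk]
    simp only [powCoprime_apply, zpow_neg, inv_zpow, inv_inv]
    rw [← zpow_natCast, ← zpow_natCast, ← zpow_mul, ← zpow_mul, mul_comm]
  set m : K := algebraMap (ZMod p) K (μ : ZMod p) with hm
  have hm0 : m ≠ 0 := by
    rw [hm, Ne, map_eq_zero_iff _ (algebraMap (ZMod p) K).injective]
    exact μ.ne_zero
  have hm1 : m ≠ 1 := by
    intro h
    apply hμ
    rw [hm, ← map_one (algebraMap (ZMod p) K)] at h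
    exact Units.ext ((algebraMap (ZMod p) K).injective h)
  set f : K → F := fun a => W p (psiL p F) d a with hf
  have hW : ∀ a : K, ι (f a) = W p (ZMod.stdAddChar (N := p)) d a := by
    intro a
    simp only [hf, W, map_sum]
    exact Finset.sum_congr rfl fun x _ => hι _
  have h3' : (univ.image fun c : Kˣ => f (c : K)).card = 3 := by
    rw [← h3]
    have e : (Set.range fun c : Kˣ => W p (ZMod.stdAddChar (N := p)) d (c : K))
        = ι '' (Set.range fun c : Kˣ => f (c : K)) := by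
      rw [← Set.range_comp]
      congr 1
      ext c
      exact (hW _).symm
    rw [e, Set.ncard_image_of_injective _ ι.injective, ← Set.ncard_coe_finset]
    congr 1
    simp
  obtain ⟨A, B, C, hAB, hAC, hBC, hS⟩ := Finset.card_eq_three.1 h3'
  have hmem : ∀ v : F, v ∈ (univ.image fun c : Kˣ => f (c : K)) ↔ ∃ a, a ≠ 0 ∧ f a = v := by
    intro v
    simp only [Finset.mem_image, mem_univ, true_and]
    constructor
    · rintro ⟨c, hc⟩
      exact ⟨c, c.ne_zero, hc⟩
    · rintro ⟨a, ha, hv⟩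
      exact ⟨Units.mk0 a ha, hv⟩
  have hdat : Dat p n f (sig p F (ν ^ d)⁻¹) m A B C :=
    { val := by
        intro a ha
        have : f a ∈ (univ.image fun c : Kˣ => f (c : K)) := (hmem _).2 ⟨a, ha, rfl⟩
        rw [hS] at this
        simpa using this
      hA := (hmem A).1 (by rw [hS]; simp)
      hB := (hmem B).1 (by rw [hS]; simp)
      hC := (hmem C).1 (by rw [hS]; simp)
      AB := hAB
      AC := hAC
      BC := hBC
      s := fun a => sig_W d ν a
      m0 := hm0
      fixed := fun x hx hs => fixed_int p F _ hgen x hx hs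
      int := fun a => W_int d a
      f0 := W_zero (psiL_ne p F) hp hq hn hd
      s1 := W_sum (psiL_ne p F) hp hq hn hd
      s2 := by
        have := W_sq (psiL_ne p F) hp hq hn hd (1 : K) one_ne_zero
        simpa using this
      s3 := by
        have := W_sq (psiL_ne p F) hp hq hn hd m hm0
        rw [if_neg hm1] at this
        exact this
      card := hq
      prime := hpr
      p3 := hp
      n0 := hn }
  exact hdat.false

end main

end Pool.Agent.helper75.MS
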